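import Pool.Agent.H48.FXD.Defs

/-!
Board fxd_modules, DUB: sharp first order upper bound of the Riemannian distance in the chart.
-/

set_option autoImplicit false

open Bundle Manifold Filter Set MeasureTheory
open scoped ContDiff Topology ENNReal NNReal

namespace Pool.Agent.H79.FXD

open Pool.Agent.H48.FXD

variable {E : Type*} [NormedAddCommGroup E] [NormedSpace ℝ E] [FiniteDimensional ℝ E]
  {M : Type*} [MetricSpace M] [ChartedSpace E M] [IsManifold 𝓘(ℝ, E) ∞ M]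
  [RiemannianBundle (fun x : M => TangentSpace 𝓘(ℝ, E) x)]
  [IsContMDiffRiemannianBundle 𝓘(ℝ, E) ∞ E (fun x : M => TangentSpace 𝓘(ℝ, E) x)]
  [IsRiemannianManifold 𝓘(ℝ, E) M]

/-- the norm in the tangent space at `y` -/
noncomputable def nt (y : M) (v : TangentSpace 𝓘(ℝ, E) y) : ℝ := ‖v‖

omit [FiniteDimensional ℝ E] [IsRiemannianManifold 𝓘(ℝ, E) M] in
variable (E M) in
theorem crb : IsContinuousRiemannianBundle E (fun x : M => TangentSpace 𝓘(ℝ, E) x) := by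
  obtain ⟨g, hg, h⟩ := IsContMDiffRiemannianBundle.exists_contMDiff (IB := 𝓘(ℝ, E)) (n := ∞)
    (F := E) (E := fun x : M => TangentSpace 𝓘(ℝ, E) x)
  exact ⟨g, hg.continuous, h⟩

omit [FiniteDimensional ℝ E] [IsRiemannianManifold 𝓘(ℝ, E) M] in
theorem step1 (z : M) {r : ℝ} (hr : 1 < r) : ∀ᶠ y : M in 𝓝 z, ∀ w : E,
    nt y ((trivializationAt E (TangentSpace 𝓘(ℝ, E)) z).symmL ℝ y w) ≤ r * tn z w := by
  have hI : IsContinuousRiemannianBundle E (fun x : M => TangentSpace 𝓘(ℝ, E) x) := crb E M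
  have hM : IsManifold 𝓘(ℝ, E) 1 M := inferInstance
  filter_upwards [eventually_norm_symmL_trivializationAt_comp_self_lt E
    (fun x : M => TangentSpace 𝓘(ℝ, E) x) z hr] with y hy w
  have h1 : (trivializationAt E (TangentSpace 𝓘(ℝ, E)) z).continuousLinearMapAt ℝ z w = w := by
    rw [TangentBundle.continuousLinearMapAt_trivializationAt (by simp), mfderiv_extChartAt_self]
    rfl
  have h2 := (((trivializationAt E (TangentSpace 𝓘(ℝ, E)) z).symmL ℝ y)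
      ∘L ((trivializationAt E (TangentSpace 𝓘(ℝ, E)) z).continuousLinearMapAt ℝ z)).le_opNorm w
  rw [ContinuousLinearMap.comp_apply, h1] at h2
  exact h2.trans (mul_le_mul_of_nonneg_right hy.le (norm_nonneg _))

omit [FiniteDimensional ℝ E] [IsRiemannianManifold 𝓘(ℝ, E) M] in
theorem step2 (z : M) {r : ℝ} (hr : 1 < r) : ∀ᶠ v : E in 𝓝 (extChartAt 𝓘(ℝ, E) z z),
    v ∈ (extChartAt 𝓘(ℝ, E) z).target ∧ ∀ w : E,
    nt ((extChartAt 𝓘(ℝ, E) z).symm v) (mfderivWithin 𝓘(ℝ, E) 𝓘(ℝ, E)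
      (extChartAt 𝓘(ℝ, E) z).symm (range 𝓘(ℝ, E)) v w) ≤ r * tn z w := by
  have hM : IsManifold 𝓘(ℝ, E) 1 M := inferInstance
  have h1 := step1 (E := E) z hr
  have hz : 𝓝 z = 𝓝 ((extChartAt 𝓘(ℝ, E) z).symm (extChartAt 𝓘(ℝ, E) z z)) := by simp
  rw [hz] at h1
  have hc : ContinuousAt (extChartAt 𝓘(ℝ, E) z).symm (extChartAt 𝓘(ℝ, E) z z) :=
    continuousAt_extChartAt_symm _
  filter_upwards [hc.preimage_mem_nhds h1, extChartAt_target_mem_nhds (I := 𝓘(ℝ, E)) z]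
    with v hv ht
  refine ⟨ht, fun w => ?_⟩
  have hs : (extChartAt 𝓘(ℝ, E) z).symm v ∈ (chartAt E z).source := by
    have := (extChartAt 𝓘(ℝ, E) z).map_target ht
    rwa [extChartAt_source] at this
  have h2 := hv w
  rw [TangentBundle.symmL_trivializationAt hs, (extChartAt 𝓘(ℝ, E) z).right_inv ht] at h2
  exact h2

theorem pf_DUB (z : M) {r : ℝ} (hr : 1 < r) : ∀ᶠ p : M × M in 𝓝 (z, z),
    dist p.1 p.2 ≤ r * tn z (extChartAt 𝓘(ℝ, E) z p.1 - extChartAt 𝓘(ℝ, E) z p.2) := by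
  have hM : IsManifold 𝓘(ℝ, E) 1 M := inferInstance
  obtain ⟨ρ, hρ, hball⟩ := Metric.eventually_nhds_iff_ball.1 (step2 (E := E) z hr)
  have A : (extChartAt 𝓘(ℝ, E) z) ⁻¹' (Metric.ball (extChartAt 𝓘(ℝ, E) z z) ρ) ∈ 𝓝 z :=
    (continuousAt_extChartAt z).preimage_mem_nhds (Metric.ball_mem_nhds _ hρ)
  have B : ∀ᶠ y in 𝓝 z, y ∈ (extChartAt 𝓘(ℝ, E) z).source ∧
      extChartAt 𝓘(ℝ, E) z y ∈ Metric.ball (extChartAt 𝓘(ℝ, E) z z) ρ := by
    filter_upwards [A, extChartAt_source_mem_nhds (I := 𝓘(ℝ, E)) z] with y h1 h2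
    exact ⟨h2, h1⟩
  rw [nhds_prod_eq]
  filter_upwards [B.prod_mk B] with p hp
  obtain ⟨⟨hs1, hb1⟩, hs2, hb2⟩ := hp
  let η := ContinuousAffineMap.lineMap (R := ℝ) (extChartAt 𝓘(ℝ, E) z p.1)
    (extChartAt 𝓘(ℝ, E) z p.2)
  set γ := (extChartAt 𝓘(ℝ, E) z).symm ∘ η with hγ
  have hη : ∀ t ∈ Icc (0 : ℝ) 1, η t ∈ Metric.ball (extChartAt 𝓘(ℝ, E) z z) ρ := by
    have h : Icc (0 : ℝ) 1 ⊆ ⇑η ⁻¹' (Metric.ball (extChartAt 𝓘(ℝ, E) z z) ρ) := by
      simp only [← image_subset_iff, ContinuousAffineMap.coe_lineMap_eq,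
        ← segment_eq_image_lineMap, η]
      exact (convex_ball _ _).segment_subset hb1 hb2
    exact h
  have hηt : Icc (0 : ℝ) 1 ⊆ ⇑η ⁻¹' (extChartAt 𝓘(ℝ, E) z).target :=
    fun t ht => (hball _ (hη t ht)).1
  have η_smooth : ContMDiffOn 𝓘(ℝ, ℝ) 𝓘(ℝ, E) 1 η (Icc 0 1) := by
    apply ContMDiff.contMDiffOn
    rw [contMDiff_iff_contDiff]
    exact ContinuousAffineMap.contDiff _
  have hle : riemannianEDist 𝓘(ℝ, E) p.1 p.2 ≤ pathELength 𝓘(ℝ, E) γ 0 1 := by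
    apply riemannianEDist_le_pathELength _ _ _ zero_le_one
    · exact (contMDiffOn_extChartAt_symm z).comp η_smooth hηt
    · simp only [hγ, Function.comp_apply, η, ContinuousAffineMap.coe_lineMap_eq,
        AffineMap.lineMap_apply_zero]
      exact (extChartAt 𝓘(ℝ, E) z).left_inv hs1
    · simp only [hγ, Function.comp_apply, η, ContinuousAffineMap.coe_lineMap_eq,
        AffineMap.lineMap_apply_one]
      exact (extChartAt 𝓘(ℝ, E) z).left_inv hs2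
  have hK : 0 ≤ tn z (extChartAt 𝓘(ℝ, E) z p.2 - extChartAt 𝓘(ℝ, E) z p.1) := norm_nonneg _
  have hlen : pathELength 𝓘(ℝ, E) γ 0 1 ≤
      ENNReal.ofReal (r * tn z (extChartAt 𝓘(ℝ, E) z p.2 - extChartAt 𝓘(ℝ, E) z p.1)) := by
    rw [pathELength_eq_lintegral_mfderivWithin_Icc]
    have hb : ∀ t ∈ Icc (0 : ℝ) 1,
        ‖mfderivWithin 𝓘(ℝ, ℝ) 𝓘(ℝ, E) γ (Icc 0 1) t (1 : ℝ)‖ₑ ≤
        ENNReal.ofReal (r * tn z (extChartAt 𝓘(ℝ, E) z p.2 - extChartAt 𝓘(ℝ, E) z p.1)) := by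
      intro t ht
      have h1 : mfderivWithin 𝓘(ℝ, ℝ) 𝓘(ℝ, E) γ (Icc 0 1) t =
          (mfderivWithin 𝓘(ℝ, E) 𝓘(ℝ, E) (extChartAt 𝓘(ℝ, E) z).symm (range 𝓘(ℝ, E)) (η t)) ∘L
            (mfderivWithin 𝓘(ℝ, ℝ) 𝓘(ℝ, E) η (Icc 0 1) t) := by
        apply mfderivWithin_comp
        · exact mdifferentiableWithinAt_extChartAt_symm (hηt ht)
        · exact η_smooth.mdifferentiableOn one_ne_zero t ht
        · exact hηt.trans (preimage_mono (extChartAt_target_subset_range z))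
        · rw [uniqueMDiffWithinAt_iff_uniqueDiffWithinAt]
          exact uniqueDiffOn_Icc zero_lt_one t ht
      have h2 : mfderivWithin 𝓘(ℝ, ℝ) 𝓘(ℝ, E) η (Icc 0 1) t (1 : ℝ) =
          extChartAt 𝓘(ℝ, E) z p.2 - extChartAt 𝓘(ℝ, E) z p.1 := by
        rw [mfderivWithin_eq_fderivWithin]
        have h3 : HasDerivAt (fun t : ℝ => AffineMap.lineMap (extChartAt 𝓘(ℝ, E) z p.1)
            (extChartAt 𝓘(ℝ, E) z p.2) t)
            (extChartAt 𝓘(ℝ, E) z p.2 - extChartAt 𝓘(ℝ, E) z p.1) t :=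
          AffineMap.hasDerivAt_lineMap
        have h4 := h3.hasFDerivAt.hasFDerivWithinAt (s := Icc (0 : ℝ) 1)
        have h5 := h4.fderivWithin (uniqueDiffOn_Icc zero_lt_one t ht)
        have h6 : (⇑η : ℝ → E) = fun t : ℝ => AffineMap.lineMap (extChartAt 𝓘(ℝ, E) z p.1)
            (extChartAt 𝓘(ℝ, E) z p.2) t := by
          funext s
          simp only [η, ContinuousAffineMap.coe_lineMap_eq]
        rw [h6, h5]
        exact one_smul ℝ _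
      have h3 : mfderivWithin 𝓘(ℝ, ℝ) 𝓘(ℝ, E) γ (Icc 0 1) t (1 : ℝ) =
          mfderivWithin 𝓘(ℝ, E) 𝓘(ℝ, E) (extChartAt 𝓘(ℝ, E) z).symm (range 𝓘(ℝ, E)) (η t)
            (mfderivWithin 𝓘(ℝ, ℝ) 𝓘(ℝ, E) η (Icc 0 1) t (1 : ℝ)) := congr($h1 (1 : ℝ))
      rw [h3, h2, ← ofReal_norm_eq_enorm]
      exact ENNReal.ofReal_le_ofReal ((hball _ (hη t ht)).2 _)
    refine (setLIntegral_mono' measurableSet_Icc hb).trans ?_
    rw [setLIntegral_const]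
    simp
  have hd : edist p.1 p.2 ≤
      ENNReal.ofReal (r * tn z (extChartAt 𝓘(ℝ, E) z p.2 - extChartAt 𝓘(ℝ, E) z p.1)) := by
    rw [IsRiemannianManifold.out (I := 𝓘(ℝ, E)) p.1 p.2]
    exact hle.trans hlen
  have hsym : tn z (extChartAt 𝓘(ℝ, E) z p.1 - extChartAt 𝓘(ℝ, E) z p.2) =
      tn z (extChartAt 𝓘(ℝ, E) z p.2 - extChartAt 𝓘(ℝ, E) z p.1) := by
    have := norm_sub_rev (E := TangentSpace 𝓘(ℝ, E) z) (extChartAt 𝓘(ℝ, E) z p.1)
      (extChartAt 𝓘(ℝ, E) z p.2)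
    exact this
  rw [hsym, dist_edist]
  exact ENNReal.toReal_le_of_le_ofReal (mul_nonneg (by linarith) hK) hd

end Pool.Agent.H79.FXD
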